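import Pool.Agent.H13.Rips

set_option autoImplicit false

namespace Pool.Agent.Results.MP_dee721_co.Exponential

open Pool.Agent.H13.Rips

theorem result :
    ∃ c : ℝ, 0 < c ∧ ∃ r₀ : ℕ, ∀ r : ℕ, r₀ ≤ r → ∃ n₀ : ℕ, ∀ n : ℕ, n₀ ≤ n →
      Real.exp (c * r) ≤ numDims n r := by
  refine ⟨Real.log 2 / 2, by have := Real.log_pos (show (1 : ℝ) < 2 by norm_num); positivity,
    10, fun r hr => ⟨r + 2, fun n hn => ?_⟩⟩
  have h := (Nat.cast_le (α := ℝ)).2 (numDims_gt r n (by omega) hn).le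
  refine le_trans ?_ h
  have e : ((2 ^ (r - 5) : ℕ) : ℝ) = Real.exp (Real.log 2 * ((r - 5 : ℕ) : ℝ)) := by
    rw [mul_comm, Real.exp_nat_mul, Real.exp_log (by norm_num)]
    push_cast
    rfl
  rw [e]
  apply Real.exp_le_exp.2
  have h1 : ((r - 5 : ℕ) : ℝ) = r - 5 := by rw [Nat.cast_sub (by omega)]; norm_num
  have h2 : (10 : ℝ) ≤ r := by exact_mod_cast hr
  have := Real.log_pos (show (1 : ℝ) < 2 by norm_num)
  rw [h1]
  nlinarith

end Pool.Agent.Results.MP_dee721_co.Exponential
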